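import Pool.Agent.Lib_helper28.Chrom.Stmt

/-!
# Module MergeMove (note 1214, section 2.3): the merged family is in NC + ROOT(k, k)
-/

open Finset

namespace Pool.Agent.Chrom

set_option linter.unusedSectionVars false
set_option linter.unusedVariables false

namespace MM

section

variable {V : Type} [Fintype V] [DecidableEq V] {A : Finset V → Prop} {u v : V}
  {S T X : Finset V}

lemma del_delE {G : SimpleGraph V} (hu : u ∈ S) : del (delE G u v) S = del G S := by
  ext x y
  simp only [del_adj]
  constructor
  · rintro ⟨h1, h2, h3⟩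
    exact ⟨h1.1, h2, h3⟩
  · rintro ⟨h1, h2, h3⟩
    refine ⟨⟨h1, ?_⟩, h2, h3⟩
    rintro (⟨rfl, -⟩ | ⟨-, rfl⟩)
    · exact h2 hu
    · exact h3 hu

lemma cc_delE {G : SimpleGraph V} (hu : u ∈ S) : cc (delE G u v) S = cc G S := by
  have h : comp (delE G u v) S = comp G S := by
    funext x
    unfold comp
    rw [del_delE hu]
  unfold cc kk comps
  rw [h]

lemma ext_iff_of_not_mem (h : u ∉ S ∨ v ∉ S) : ext A u v S ↔ A S := by
  unfold ext
  constructor
  · rintro (h1 | ⟨h1, h2, -⟩)
    · exact h1
    · rcases h with h | h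
      · exact absurd h1 h
      · exact absurd h2 h
  · exact Or.inl

lemma ext_iff_of_mem (h : NC A) (hadj : (gr A).Adj u v) (hu : u ∈ S) (hv : v ∈ S) :
    ext A u v S ↔ (A (S.erase u) ∧ A (S.erase v) ∧
      ∀ S' ⊆ S, u ∈ S' → v ∈ S' → cc (gr A) S' ≤ -1) := by
  unfold ext
  constructor
  · rintro (h1 | ⟨-, -, h3, h4, h5⟩)
    · exact absurd hadj (h.not_adj h1 hu hv)
    · exact ⟨h3, h4, fun S' hS' hu' hv' => by rw [← cc_delE (v := v) hu']; exact h5 S' hS' hu' hv'⟩
  · rintro ⟨h3, h4, h5⟩
    exact Or.inr ⟨hu, hv, h3, h4, fun S' hS' hu' hv' => by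
      rw [cc_delE hu']; exact h5 S' hS' hu' hv'⟩

lemma ext_down (h : NC A) (hST : S ⊆ T) (hT : ext A u v T) : ext A u v S := by
  rcases hT with h1 | ⟨h1, h2, h3, h4, h5⟩
  · exact Or.inl (h.down _ _ hST h1)
  · by_cases hu : u ∈ S
    · by_cases hv : v ∈ S
      · exact Or.inr ⟨hu, hv, h.down _ _ (erase_subset_erase _ hST) h3,
          h.down _ _ (erase_subset_erase _ hST) h4, fun S' hS' => h5 S' (hS'.trans hST)⟩
      · exact Or.inl (h.down _ _ (subset_erase.2 ⟨hST, hv⟩) h4)
    · exact Or.inl (h.down _ _ (subset_erase.2 ⟨hST, hu⟩) h3)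

lemma gr_ext_le : gr (ext A u v) ≤ gr A := by
  intro x y h
  exact ⟨h.1, fun hA => h.2 (Or.inl hA)⟩

lemma reach_ext {x y : V} (h : (del (gr (ext A u v)) S).Reachable x y) :
    (del (gr A) S).Reachable x y := by
  refine h.mono ?_
  intro a b hab
  exact ⟨gr_ext_le hab.1, hab.2⟩

lemma kk_pair (h3 : ThreeConn (gr A)) : cc (gr A) ({u, v} : Finset V) ≤ -1 ∨ u = v := by
  by_cases huv : u = v
  · exact Or.inr huv
  · left
    have h1 := h3 {u, v} card_le_two
    unfold cc
    rw [h1, card_pair huv]
    norm_num

lemma exists_adj_ne {G : SimpleGraph V} (h3 : ThreeConn G) (hc : 4 ≤ Fintype.card V)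
    (huv : u ≠ v) : ∃ x, G.Adj u x ∧ x ≠ v := by
  have hk := h3 {v} (by simp)
  obtain ⟨w, hw⟩ : ∃ w, w ∉ ({u, v} : Finset V) := by
    by_contra hcon
    push Not at hcon
    have h1 : (univ : Finset V) ⊆ {u, v} := fun x _ => hcon x
    have h2 := card_le_card h1
    rw [card_univ] at h2
    have h3' : ({u, v} : Finset V).card ≤ 2 := card_le_two
    omega
  simp only [mem_insert, mem_singleton, not_or] at hw
  have hr : (del G {v}).Reachable u w := by
    have h1 := comp_mem_comps (G := G) (S := {v}) (v := u) (by simpa using huv)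
    have h2 := comp_mem_comps (G := G) (S := {v}) (v := w) (by simpa using hw.2)
    have h4 := card_le_one.1 (le_of_eq hk) _ h1 _ h2
    rw [← mem_comp, h4]
    exact self_mem_comp w
  obtain ⟨p⟩ := hr
  cases p with
  | nil => exact absurd rfl hw.1
  | cons hp q => exact ⟨_, hp.1, by simpa using hp.2.2⟩

/-! ### unmerge -/

variable {f g : Finset {w : V // w ≠ v}}

lemma um_mem (huv : u ≠ v) {x : {w : V // w ≠ v}} : x.1 ∈ unmerge u v f ↔ x ∈ f := by
  rw [mem_unmerge_iff huv, mproj_of_ne huv x.2]

lemma um_u (huv : u ≠ v) : u ∈ unmerge u v f ↔ (⟨u, huv⟩ : {w : V // w ≠ v}) ∈ f := by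
  rw [mem_unmerge_iff huv, mproj_of_ne huv huv]

lemma um_v (huv : u ≠ v) : v ∈ unmerge u v f ↔ (⟨u, huv⟩ : {w : V // w ≠ v}) ∈ f := by
  rw [mem_unmerge_iff huv, mproj_b huv]

lemma um_sub (huv : u ≠ v) (h : f ⊆ g) : unmerge u v f ⊆ unmerge u v g := by
  intro x hx
  rw [mem_unmerge_iff huv] at hx ⊢
  exact h hx

lemma um_disj (huv : u ≠ v) (h : Disjoint f g) : Disjoint (unmerge u v f) (unmerge u v g) := by
  rw [Finset.disjoint_left]
  intro x hx hx'
  rw [mem_unmerge_iff huv] at hx hx'
  exact Finset.disjoint_left.1 h hx hx'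

lemma card_um_out (huv : u ≠ v) (hk : (⟨u, huv⟩ : {w : V // w ≠ v}) ∉ f) :
    (unmerge u v f).card = f.card := by
  unfold unmerge
  rw [if_neg, card_map]
  intro h
  obtain ⟨w, hw, hw'⟩ := mem_map.1 h
  apply hk
  have : w = ⟨u, huv⟩ := Subtype.ext hw'
  rwa [← this]

lemma card_um_in (huv : u ≠ v) (hk : (⟨u, huv⟩ : {w : V // w ≠ v}) ∈ f) :
    (unmerge u v f).card = f.card + 1 := by
  unfold unmerge
  have hm : u ∈ f.map (Function.Embedding.subtype fun w => w ≠ v) := mem_map.2 ⟨_, hk, rfl⟩
  rw [if_pos hm, card_insert_of_notMem, card_map]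
  intro h
  obtain ⟨w, hw, hw'⟩ := mem_map.1 h
  exact w.2 hw'

/-- the image of a set of vertices -/
def dn (v : V) (X : Finset V) : Finset {w : V // w ≠ v} := univ.filter fun w => w.1 ∈ X

lemma mem_dn {x : {w : V // w ≠ v}} : x ∈ dn v X ↔ x.1 ∈ X := by simp [dn]

lemma um_dn (huv : u ≠ v) (h : u ∈ X ↔ v ∈ X) : unmerge u v (dn v X) = X := by
  ext x
  rw [mem_unmerge_iff huv, mem_dn]
  by_cases hx : x = v
  · subst hx
    rw [mproj_b huv]
    exact h
  · rw [mproj_of_ne huv hx]

lemma dn_ssub (huv : u ≠ v) (h : u ∈ X ↔ v ∈ X) (hX : X ⊂ unmerge u v f) : dn v X ⊂ f := by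
  rw [Finset.ssubset_iff_subset_ne]
  constructor
  · intro x hx
    rw [mem_dn] at hx
    exact (um_mem huv).1 (hX.subset hx)
  · intro he
    rw [← he, um_dn huv h] at hX
    exact (_root_.ssubset_irrefl _) hX

/-! ### the graph of the merged family -/

lemma merge_out (huv : u ≠ v) (hk : (⟨u, huv⟩ : {w : V // w ≠ v}) ∉ f) :
    merge u v (ext A u v) f ↔ A (unmerge u v f) := by
  unfold merge
  exact ext_iff_of_not_mem (Or.inl fun h => hk ((um_u huv).1 h))

lemma mergeG_le (huv : u ≠ v) (h : NC A) :
    mergeG (gr A) huv ≤ gr (merge u v (ext A u v)) := by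
  rintro x y ⟨hne, a, b, ha, hb, hab⟩
  refine ⟨hne, fun hM => ?_⟩
  have haL : a ∈ unmerge u v {x, y} := by rw [mem_unmerge_iff huv, ha]; simp
  have hbL : b ∈ unmerge u v {x, y} := by rw [mem_unmerge_iff huv, hb]; simp
  rcases hM with h1 | ⟨h1, h2, h3, h4, h5⟩
  · exact h.not_adj h1 haL hbL hab
  · by_cases hu : a ≠ u ∧ b ≠ u
    · exact h.not_adj h3 (mem_erase.2 ⟨hu.1, haL⟩) (mem_erase.2 ⟨hu.2, hbL⟩) hab
    · have hv : a ≠ v ∧ b ≠ v := by
        constructor
        · rintro rfl
          apply hne
          rw [← ha, ← hb, mproj_eq_iff huv]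
          right; right
          refine ⟨rfl, ?_⟩
          by_contra hbu
          exact hu ⟨huv.symm, hbu⟩
        · rintro rfl
          apply hne
          rw [← ha, ← hb, mproj_eq_iff huv]
          right; left
          refine ⟨?_, rfl⟩
          by_contra hau
          exact hu ⟨hau, huv.symm⟩
      exact h.not_adj h4 (mem_erase.2 ⟨hv.1, haL⟩) (mem_erase.2 ⟨hv.2, hbL⟩) hab

lemma um_pair_out (huv : u ≠ v) {x y : {w : V // w ≠ v}} (hx : x ≠ ⟨u, huv⟩)
    (hy : y ≠ ⟨u, huv⟩) : unmerge u v {x, y} = {x.1, y.1} := by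
  ext z
  rw [mem_unmerge_iff huv]
  by_cases hz : z = v
  · subst hz
    rw [mproj_b huv]
    simp only [mem_insert, mem_singleton]
    constructor
    · rintro (h | h)
      · exact absurd h.symm hx
      · exact absurd h.symm hy
    · rintro (h | h)
      · exact absurd h.symm x.2
      · exact absurd h.symm y.2
  · rw [mproj_of_ne huv hz]
    simp only [mem_insert, mem_singleton, Subtype.ext_iff]

lemma um_pair_in (huv : u ≠ v) {y : {w : V // w ≠ v}} :
    unmerge u v {⟨u, huv⟩, y} = {u, v, y.1} := by
  ext z
  rw [mem_unmerge_iff huv]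
  by_cases hz : z = v
  · subst hz
    rw [mproj_b huv]
    simp
  · rw [mproj_of_ne huv hz]
    simp only [mem_insert, mem_singleton, Subtype.ext_iff]
    tauto

lemma adj_out (huv : u ≠ v) {x y : {w : V // w ≠ v}} (hx : x ≠ ⟨u, huv⟩)
    (hy : y ≠ ⟨u, huv⟩) (hadj : (gr (merge u v (ext A u v))).Adj x y) :
    (gr A).Adj x.1 y.1 := by
  refine ⟨fun he => hadj.1 (Subtype.ext he), fun hA => hadj.2 ?_⟩
  rw [merge_out huv, um_pair_out huv hx hy]
  · exact hA
  · simp only [mem_insert, mem_singleton, not_or]
    exact ⟨fun h => hx h.symm, fun h => hy h.symm⟩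

lemma minNF_triple (huv : u ≠ v) (h : NC A) (h3 : ThreeConn (gr A)) {w : V} (hwu : w ≠ u)
    (hwv : w ≠ v) (h1 : A {u, w}) (h2 : A {v, w}) (hn : ¬ ext A u v {u, v, w}) :
    MinNF (ext A u v) {u, v, w} := by
  refine ⟨hn, fun X hX => ?_⟩
  by_cases hu : u ∈ X
  · by_cases hv : v ∈ X
    · have hw : w ∉ X := by
        intro hw
        apply Finset.ssubset_iff_subset_ne.1 hX |>.2
        refine Subset.antisymm hX.subset ?_
        intro z hz
        simp only [mem_insert, mem_singleton] at hz
        rcases hz with rfl | rfl | rfl <;> assumption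
      have hX' : X ⊆ {u, v} := by
        intro z hz
        have := hX.subset hz
        simp only [mem_insert, mem_singleton] at this ⊢
        rcases this with rfl | rfl | rfl
        · exact Or.inl rfl
        · exact Or.inr rfl
        · exact absurd hz hw
      refine ext_down h hX' ?_
      right
      refine ⟨by simp, by simp, ?_, ?_, ?_⟩
      · refine h.down _ {v} ?_ (h.sing v)
        intro z hz
        rw [mem_erase, mem_insert, mem_singleton] at hz
        rw [mem_singleton]
        tauto
      · refine h.down _ {u} ?_ (h.sing u)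
        intro z hz
        rw [mem_erase, mem_insert, mem_singleton] at hz
        rw [mem_singleton]
        tauto
      · intro S' hS' hu' hv'
        have : S' = {u, v} := by
          refine Subset.antisymm hS' ?_
          intro z hz
          simp only [mem_insert, mem_singleton] at hz
          rcases hz with rfl | rfl <;> assumption
        rw [cc_delE hu', this]
        exact (kk_pair h3).resolve_right huv
    · refine Or.inl (h.down _ {u, w} ?_ h1)
      intro z hz
      have := hX.subset hz
      simp only [mem_insert, mem_singleton] at this ⊢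
      rcases this with rfl | rfl | rfl
      · exact Or.inl rfl
      · exact absurd hz hv
      · exact Or.inr rfl
  · refine Or.inl (h.down _ {v, w} ?_ h2)
    intro z hz
    have := hX.subset hz
    simp only [mem_insert, mem_singleton] at this ⊢
    rcases this with rfl | rfl | rfl
    · exact absurd hz hu
    · exact Or.inl rfl
    · exact Or.inr rfl

lemma adj_in (huv : u ≠ v) (h : NC A) (h3 : ThreeConn (gr A)) {y : {w : V // w ≠ v}}
    (hadj : (gr (merge u v (ext A u v))).Adj ⟨u, huv⟩ y) :
    (gr A).Adj u y.1 ∨ (gr A).Adj v y.1 ∨ MinNF (ext A u v) {u, v, y.1} := by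
  have hyu : y.1 ≠ u := fun he => hadj.1 (Subtype.ext he.symm)
  by_cases h1 : (gr A).Adj u y.1
  · exact Or.inl h1
  by_cases h2 : (gr A).Adj v y.1
  · exact Or.inr (Or.inl h2)
  right; right
  have h1' : A {u, y.1} := by
    by_contra hc
    exact h1 ⟨hyu.symm, hc⟩
  have h2' : A {v, y.1} := by
    by_contra hc
    exact h2 ⟨fun he => y.2 he.symm, hc⟩
  refine minNF_triple huv h h3 hyu y.2 h1' h2' ?_
  have h4 := hadj.2
  unfold merge at h4
  rwa [um_pair_in huv] at h4

/-! ### reachability and components -/

lemma reach_mergeG (huv : u ≠ v) {x y : V} (h : (del (gr A) (unmerge u v f)).Reachable x y) :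
    (del (mergeG (gr A) huv) f).Reachable (mproj huv x) (mproj huv y) := by
  refine reachable_map ?_ h
  intro a b hab
  by_cases he : mproj huv a = mproj huv b
  · rw [he]
  · refine SimpleGraph.Adj.reachable ⟨⟨he, a, b, rfl, rfl, hab.1⟩, ?_, ?_⟩
    · rw [← mem_unmerge_iff huv]; exact hab.2.1
    · rw [← mem_unmerge_iff huv]; exact hab.2.2

lemma reach_merge (huv : u ≠ v) (h : NC A) {x y : V}
    (hr : (del (gr A) (unmerge u v f)).Reachable x y) :
    (del (gr (merge u v (ext A u v))) f).Reachable (mproj huv x) (mproj huv y) := by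
  refine (reach_mergeG huv hr).mono ?_
  intro a b hab
  exact ⟨mergeG_le huv h hab.1, hab.2⟩

lemma kk_mergeG (huv : u ≠ v) (hadj : (gr A).Adj u v) :
    kk (mergeG (gr A) huv) f = kk (gr A) (unmerge u v f) := by
  refine kk_merge huv f ?_
  by_cases hu : u ∈ unmerge u v f
  · exact Or.inl hu
  · right
    refine SimpleGraph.Adj.reachable ⟨hadj, hu, fun hv => hu ?_⟩
    rw [um_u huv]
    exact (um_v huv).1 hv

lemma cc_out_le (huv : u ≠ v) (h : NC A) (hadj : (gr A).Adj u v)
    (hk : (⟨u, huv⟩ : {w : V // w ≠ v}) ∉ f) :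
    cc (gr (merge u v (ext A u v))) f ≤ cc (gr A) (unmerge u v f) := by
  refine (cc_anti_graph (mergeG_le huv h) f).trans ?_
  unfold cc
  rw [kk_mergeG huv hadj, card_um_out huv hk]

lemma cc_in (huv : u ≠ v) (h : NC A) (hadj : (gr A).Adj u v)
    (hk : (⟨u, huv⟩ : {w : V // w ≠ v}) ∈ f) :
    cc (gr (merge u v (ext A u v))) f = cc (gr A) (unmerge u v f) + 1 := by
  have h1 : comps (gr (merge u v (ext A u v))) f = comps (mergeG (gr A) huv) f := by
    refine comps_eq_of_reachable (mergeG_le huv h) f ?_
    rintro x y ⟨hxy, hx, hy⟩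
    have hx' : x ≠ ⟨u, huv⟩ := by rintro rfl; exact hx hk
    have hy' : y ≠ ⟨u, huv⟩ := by rintro rfl; exact hy hk
    refine SimpleGraph.Adj.reachable ⟨⟨hxy.1, x.1, y.1, ?_, ?_, adj_out huv hx' hy' hxy⟩, hx, hy⟩
    · rw [mproj_of_ne huv x.2]
    · rw [mproj_of_ne huv y.2]
  have h2 : kk (gr (merge u v (ext A u v))) f = kk (gr A) (unmerge u v f) := by
    rw [← kk_mergeG huv hadj]
    unfold kk
    rw [h1]
  unfold cc
  rw [h2, card_um_in huv hk]
  push_cast
  ring

lemma minNF_out (huv : u ≠ v) (hk : (⟨u, huv⟩ : {w : V // w ≠ v}) ∉ f)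
    (hf : MinNF (merge u v (ext A u v)) f) :
    MinNF A (unmerge u v f) ∧ MinNF (ext A u v) (unmerge u v f) := by
  have hu : u ∉ unmerge u v f := fun hu => hk ((um_u huv).1 hu)
  have hv : v ∉ unmerge u v f := fun hv => hk ((um_v huv).1 hv)
  have h1 : ¬ A (unmerge u v f) := fun hA => hf.1 ((merge_out huv hk).2 hA)
  have h2 : ∀ X, X ⊂ unmerge u v f → A X := by
    intro X hX
    have hXi : u ∈ X ↔ v ∈ X :=
      ⟨fun h' => absurd (hX.subset h') hu, fun h' => absurd (hX.subset h') hv⟩
    have h3 := hf.2 (dn v X) (dn_ssub huv hXi hX)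
    rw [merge_out huv, um_dn huv hXi] at h3
    · exact h3
    · rw [mem_dn]
      exact fun h' => hu (hX.subset h')
  refine ⟨⟨h1, h2⟩, ⟨fun hE => h1 ((ext_iff_of_not_mem (Or.inl hu)).1 hE),
    fun X hX => Or.inl (h2 X hX)⟩⟩

lemma minNF_in (huv : u ≠ v) (h : NC A) (hadj : (gr A).Adj u v)
    (hk : (⟨u, huv⟩ : {w : V // w ≠ v}) ∈ f) (hf : MinNF (merge u v (ext A u v)) f) :
    MinNF A ((unmerge u v f).erase u) ∨ MinNF A ((unmerge u v f).erase v) ∨
      (MinNF (ext A u v) (unmerge u v f) ∧ 0 ≤ cc (gr A) (unmerge u v f)) := by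
  set L := unmerge u v f with hL
  have hu : u ∈ L := (um_u huv).2 hk
  have hv : v ∈ L := (um_v huv).2 hk
  have key : ∀ X, X ⊂ L → (u ∈ X ↔ v ∈ X) → ext A u v X := by
    intro X hX hXi
    have h3 := hf.2 (dn v X) (dn_ssub huv hXi hX)
    unfold merge at h3
    rwa [um_dn huv hXi] at h3
  have hu' : ∀ X, X ⊂ L.erase u → A X := by
    intro X hX
    have hXu : u ∉ X := fun h' => (mem_erase.1 (hX.subset h')).1 rfl
    by_cases hXv : v ∈ X
    · have h1 : insert u X ⊂ L := by
        rw [Finset.ssubset_iff_subset_ne]
        constructor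
        · intro z hz
          rcases mem_insert.1 hz with rfl | hz
          · exact hu
          · exact (mem_erase.1 (hX.subset hz)).2
        · intro he
          rw [← he, erase_insert hXu] at hX
          exact _root_.ssubset_irrefl _ hX
      have h2 := key _ h1 ⟨fun _ => mem_insert_of_mem hXv, fun _ => mem_insert_self _ _⟩
      rw [ext_iff_of_mem h hadj (mem_insert_self _ _) (mem_insert_of_mem hXv),
        erase_insert hXu] at h2
      exact h2.1
    · have h2 := key X (Finset.ssubset_of_subset_of_ssubset (Subset.refl X)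
        (Finset.ssubset_of_ssubset_of_subset hX (erase_subset _ _)))
        ⟨fun h' => absurd h' hXu, fun h' => absurd h' hXv⟩
      exact (ext_iff_of_not_mem (Or.inl hXu)).1 h2
  have hv' : ∀ X, X ⊂ L.erase v → A X := by
    intro X hX
    have hXv : v ∉ X := fun h' => (mem_erase.1 (hX.subset h')).1 rfl
    by_cases hXu : u ∈ X
    · have h1 : insert v X ⊂ L := by
        rw [Finset.ssubset_iff_subset_ne]
        constructor
        · intro z hz
          rcases mem_insert.1 hz with rfl | hz
          · exact hv
          · exact (mem_erase.1 (hX.subset hz)).2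
        · intro he
          rw [← he, erase_insert hXv] at hX
          exact _root_.ssubset_irrefl _ hX
      have h2 := key _ h1 ⟨fun _ => mem_insert_self _ _, fun _ => mem_insert_of_mem hXu⟩
      rw [ext_iff_of_mem h hadj (mem_insert_of_mem hXu) (mem_insert_self _ _),
        erase_insert hXv] at h2
      exact h2.2.1
    · have h2 := key X (Finset.ssubset_of_ssubset_of_subset hX (erase_subset _ _))
        ⟨fun h' => absurd h' hXu, fun h' => absurd h' hXv⟩
      exact (ext_iff_of_not_mem (Or.inl hXu)).1 h2
  by_cases h1 : A (L.erase u)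
  · by_cases h2 : A (L.erase v)
    · right; right
      have hn : ¬ ext A u v L := hf.1
      have hmin : MinNF (ext A u v) L := by
        refine ⟨hn, fun X hX => ?_⟩
        by_cases hXu : u ∈ X
        · by_cases hXv : v ∈ X
          · exact key X hX ⟨fun _ => hXv, fun _ => hXu⟩
          · exact Or.inl (h.down _ _ (subset_erase.2 ⟨hX.subset, hXv⟩) h2)
        · exact Or.inl (h.down _ _ (subset_erase.2 ⟨hX.subset, hXu⟩) h1)
      refine ⟨hmin, ?_⟩
      rw [ext_iff_of_mem h hadj hu hv] at hn
      push Not at hn
      obtain ⟨S', hS', hu'', hv'', hcc⟩ := hn h1 h2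
      by_cases he : S' = L
      · rw [he] at hcc
        omega
      · have h3 := key S' (Finset.ssubset_iff_subset_ne.2 ⟨hS', he⟩) ⟨fun _ => hv'', fun _ => hu''⟩
        rw [ext_iff_of_mem h hadj hu'' hv''] at h3
        have h4 := h3.2.2 S' (Subset.refl _) hu'' hv''
        omega
    · exact Or.inr (Or.inl ⟨h2, hv'⟩)
  · exact Or.inl ⟨h1, hu'⟩

end

end MM

open MM in
theorem stmtMerge (hExt : StmtExt) : StmtMerge := by
  intro V _ _ A u v huv h hc h3 hadj htight
  obtain ⟨hB, -, -⟩ := hExt V A u v h hc h3 hadj htight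
  set B := ext A u v with hBdef
  set M := merge u v B with hMdef
  set k : {w : V // w ≠ v} := ⟨u, huv⟩ with hkdef
  have hface : ∀ S : Finset {w : V // w ≠ v}, M S → S.Nonempty → cc (gr M) S ≤ 0 := by
    intro S hS hne
    by_cases hk : k ∈ S
    · have h1 := cc_in huv h hadj hk
      have hS' : ext A u v (unmerge u v S) := hS
      rw [ext_iff_of_mem h hadj ((um_u huv).2 hk) ((um_v huv).2 hk)] at hS'
      have h2 := hS'.2.2 _ (Subset.refl _) ((um_u huv).2 hk) ((um_v huv).2 hk)
      have h1' : cc (gr M) S = cc (gr A) (unmerge u v S) + 1 := h1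
      omega
    · refine (cc_out_le huv h hadj hk).trans ?_
      refine h.face _ ((merge_out huv hk).1 hS) ?_
      obtain ⟨x, hx⟩ := hne
      exact ⟨x.1, (um_mem huv).2 hx⟩
  have hdown : ∀ S T : Finset {w : V // w ≠ v}, S ⊆ T → M T → M S :=
    fun S T hST hT => ext_down h (um_sub huv hST) hT
  have hadjn : ∀ (L : Finset V), u ∈ L → (∀ w ∈ L, w ≠ u → w ≠ v → A {u, w}) →
      0 < (adjComps (gr A) L u).card := by
    intro L hu hL
    obtain ⟨x, hx, hxv⟩ := exists_adj_ne h3 hc huv
    have hxL : x ∉ L := fun hxL => hx.2 (hL x hxL (fun he => hx.1 he.symm) hxv)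
    rw [card_pos]
    exact ⟨comp (gr A) L x, mem_adjComps.2 ⟨comp_mem_comps hxL, x, self_mem_comp x, hx⟩⟩
  have hadjn' : ∀ (L : Finset V), v ∈ L → (∀ w ∈ L, w ≠ u → w ≠ v → A {v, w}) →
      0 < (adjComps (gr A) L v).card := by
    intro L hv hL
    obtain ⟨x, hx, hxv⟩ := exists_adj_ne h3 hc huv.symm
    have hxL : x ∉ L := fun hxL => hx.2 (hL x hxL hxv (fun he => hx.1 he.symm))
    rw [card_pos]
    exact ⟨comp (gr A) L x, mem_adjComps.2 ⟨comp_mem_comps hxL, x, self_mem_comp x, hx⟩⟩
  have hnonface : ∀ f : Finset {w : V // w ≠ v}, MinNF M f → 3 ≤ f.card → 0 ≤ cc (gr M) f := by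
    intro f hf hf3
    by_cases hk : k ∈ f
    · have h1 : cc (gr M) f = cc (gr A) (unmerge u v f) + 1 := cc_in huv h hadj hk
      have hcard : (unmerge u v f).card = f.card + 1 := card_um_in huv hk
      have huL : u ∈ unmerge u v f := (um_u huv).2 hk
      have hvL : v ∈ unmerge u v f := (um_v huv).2 hk
      -- pairs {k, w}
      have hpair : ∀ w ∈ unmerge u v f, w ≠ u → w ≠ v → A {u, w} ∧ A {v, w} := by
        intro w hw hwu hwv
        have hw' : (⟨w, hwv⟩ : {w : V // w ≠ v}) ∈ f := (um_mem huv).1 hw
        have hss : ({k, ⟨w, hwv⟩} : Finset {w : V // w ≠ v}) ⊂ f := by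
          rw [Finset.ssubset_iff_subset_ne]
          constructor
          · intro z hz
            simp only [mem_insert, mem_singleton] at hz
            rcases hz with rfl | rfl
            · exact hk
            · exact hw'
          · intro he
            have h5 : ({k, ⟨w, hwv⟩} : Finset {w : V // w ≠ v}).card ≤ 2 := card_le_two
            rw [he] at h5
            omega
        have h4 : ext A u v (unmerge u v {k, ⟨w, hwv⟩}) := hf.2 _ hss
        rw [um_pair_in huv] at h4
        rw [ext_iff_of_mem h hadj (by simp) (by simp)] at h4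
        obtain ⟨h5, h6, -⟩ := h4
        constructor
        · refine h.down _ _ ?_ h6
          intro z hz
          simp only [mem_insert, mem_singleton] at hz
          simp only [mem_erase, mem_insert, mem_singleton]
          rcases hz with rfl | rfl
          · exact ⟨huv, Or.inl rfl⟩
          · exact ⟨hwv, Or.inr (Or.inr rfl)⟩
        · refine h.down _ _ ?_ h5
          intro z hz
          simp only [mem_insert, mem_singleton] at hz
          simp only [mem_erase, mem_insert, mem_singleton]
          rcases hz with rfl | rfl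
          · exact ⟨huv.symm, Or.inr (Or.inl rfl)⟩
          · exact ⟨hwu, Or.inr (Or.inr rfl)⟩
      rcases minNF_in huv h hadj hk hf with h2 | h2 | ⟨-, h2⟩
      · have h4 := h.nonface _ h2 (by rw [card_erase_of_mem huL, hcard]; omega)
        have h5 := kk_erase (G := gr A) huL
        have h6 := hadjn (unmerge u v f) huL fun w hw hwu hwv => (hpair w hw hwu hwv).1
        have h7 : ((unmerge u v f).erase u).card = f.card := by
          rw [card_erase_of_mem huL, hcard]; omega
        rw [h1]
        unfold cc at h4 ⊢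
        rw [h7] at h4
        rw [hcard]
        push_cast
        omega
      · have h4 := h.nonface _ h2 (by rw [card_erase_of_mem hvL, hcard]; omega)
        have h5 := kk_erase (G := gr A) hvL
        have h6 := hadjn' (unmerge u v f) hvL fun w hw hwu hwv => (hpair w hw hwu hwv).2
        have h7 : ((unmerge u v f).erase v).card = f.card := by
          rw [card_erase_of_mem hvL, hcard]; omega
        rw [h1]
        unfold cc at h4 ⊢
        rw [h7] at h4
        rw [hcard]
        push_cast
        omega
      · omega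
    · obtain ⟨hA, hBf⟩ := minNF_out huv hk hf
      have hcard : (unmerge u v f).card = f.card := card_um_out huv hk
      have huL : u ∉ unmerge u v f := fun hu => hk ((um_u huv).1 hu)
      have hvL : v ∉ unmerge u v f := fun hv => hk ((um_v huv).1 hv)
      have hext : ∀ y : {w : V // w ≠ v}, y ∉ f → (gr M).Adj k y →
          (del (mergeG (gr A) huv) f).Reachable k y := by
        intro y hy hky
        have hyL : y.1 ∉ unmerge u v f := fun hy' => hy ((um_mem huv).1 hy')
        have hmy : mproj huv y.1 = y := by rw [mproj_of_ne huv y.2]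
        have hmk : mproj huv u = k := by rw [mproj_of_ne huv huv]
        rcases adj_in huv h h3 hky with h1 | h1 | h1
        · have := reach_mergeG (f := f) huv
            (SimpleGraph.Adj.reachable (⟨h1, huL, hyL⟩ : (del (gr A) (unmerge u v f)).Adj u y.1))
          rwa [hmk, hmy] at this
        · have := reach_mergeG (f := f) huv
            (SimpleGraph.Adj.reachable (⟨h1, hvL, hyL⟩ : (del (gr A) (unmerge u v f)).Adj v y.1))
          rwa [mproj_b huv, hmy] at this
        · have hyu : y.1 ≠ u := fun he => hky.1 (Subtype.ext he.symm)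
          have hd : Disjoint (unmerge u v f) ({u, v, y.1} : Finset V) := by
            rw [Finset.disjoint_right]
            intro z hz
            simp only [mem_insert, mem_singleton] at hz
            rcases hz with rfl | rfl | rfl <;> assumption
          have hcard3 : ({u, v, y.1} : Finset V).card = 3 := by
            rw [card_insert_of_notMem, card_pair]
            · exact fun he => y.2 he.symm
            · simp only [mem_insert, mem_singleton, not_or]
              exact ⟨huv, fun he => hyu he.symm⟩
          have hle := hB.nocross _ _ hBf h1 (by rw [hcard]; exact hf3) (by rw [hcard3]) hd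
          have hr := reach_ext (reachable_of_meet_le hd hle (u := u) (v := y.1)
            (by simp) (by simp))
          have := reach_mergeG (f := f) huv hr
          rwa [hmk, hmy] at this
      have hcomps : comps (gr M) f = comps (mergeG (gr A) huv) f := by
        refine comps_eq_of_reachable (mergeG_le huv h) f ?_
        rintro x y ⟨hxy, hx, hy⟩
        by_cases hxk : x = k
        · subst hxk
          exact hext y hy hxy
        · by_cases hyk : y = k
          · subst hyk
            exact (hext x hx hxy.symm).symm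
          · refine SimpleGraph.Adj.reachable
              ⟨⟨hxy.1, x.1, y.1, ?_, ?_, adj_out huv hxk hyk hxy⟩, hx, hy⟩
            · rw [mproj_of_ne huv x.2]
            · rw [mproj_of_ne huv y.2]
      have hkk : kk (gr M) f = kk (gr A) (unmerge u v f) := by
        rw [← kk_mergeG huv hadj]
        unfold kk
        rw [hcomps]
      have h4 := h.nonface _ hA (by rw [hcard]; exact hf3)
      unfold cc at h4 ⊢
      rw [hkk, ← hcard]
      exact h4
  have hcross1 : ∀ f g : Finset {w : V // w ≠ v}, MinNF M f → MinNF M g → 3 ≤ f.card →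
      3 ≤ g.card → Disjoint f g → k ∉ f → (meetComps (gr M) f g).card ≤ 1 := by
    intro f g hf hg hf3 hg3 hd hk
    obtain ⟨hA, hBf⟩ := minNF_out huv hk hf
    have hcard : (unmerge u v f).card = f.card := card_um_out huv hk
    have huL : u ∉ unmerge u v f := fun hu => hk ((um_u huv).1 hu)
    have hvL : v ∉ unmerge u v f := fun hv => hk ((um_v huv).1 hv)
    have hdL := um_disj huv hd
    have key : ∀ x ∈ unmerge u v g, ∀ y ∈ unmerge u v g,
        (del (gr A) (unmerge u v f)).Reachable x y := by
      by_cases hkg : k ∈ g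
      · have hcardg : (unmerge u v g).card = g.card + 1 := card_um_in huv hkg
        have huG : u ∈ unmerge u v g := (um_u huv).2 hkg
        have hvG : v ∈ unmerge u v g := (um_v huv).2 hkg
        have huvr : (del (gr A) (unmerge u v f)).Reachable u v :=
          SimpleGraph.Adj.reachable ⟨hadj, huL, hvL⟩
        rcases minNF_in huv h hadj hkg hg with h1 | h1 | ⟨h1, -⟩
        · have hd' : Disjoint (unmerge u v f) ((unmerge u v g).erase u) :=
            Finset.disjoint_of_subset_right (erase_subset _ _) hdL
          have hle := h.nocross _ _ hA h1 (by rw [hcard]; exact hf3)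
            (by rw [card_erase_of_mem huG, hcardg]; omega) hd'
          have hr : ∀ x ∈ unmerge u v g, (del (gr A) (unmerge u v f)).Reachable x v := by
            intro x hx
            by_cases hxu : x = u
            · subst hxu; exact huvr
            · exact reachable_of_meet_le hd' hle (mem_erase.2 ⟨hxu, hx⟩)
                (mem_erase.2 ⟨huv.symm, hvG⟩)
          exact fun x hx y hy => (hr x hx).trans (hr y hy).symm
        · have hd' : Disjoint (unmerge u v f) ((unmerge u v g).erase v) :=
            Finset.disjoint_of_subset_right (erase_subset _ _) hdL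
          have hle := h.nocross _ _ hA h1 (by rw [hcard]; exact hf3)
            (by rw [card_erase_of_mem hvG, hcardg]; omega) hd'
          have hr : ∀ x ∈ unmerge u v g, (del (gr A) (unmerge u v f)).Reachable x u := by
            intro x hx
            by_cases hxv : x = v
            · subst hxv; exact huvr.symm
            · exact reachable_of_meet_le hd' hle (mem_erase.2 ⟨hxv, hx⟩)
                (mem_erase.2 ⟨huv, huG⟩)
          exact fun x hx y hy => (hr x hx).trans (hr y hy).symm
        · have hle := hB.nocross _ _ hBf h1 (by rw [hcard]; exact hf3)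
            (by rw [hcardg]; omega) hdL
          exact fun x hx y hy => reach_ext (reachable_of_meet_le hdL hle hx hy)
      · obtain ⟨hA', -⟩ := minNF_out huv hkg hg
        have hcardg : (unmerge u v g).card = g.card := card_um_out huv hkg
        have hle := h.nocross _ _ hA hA' (by rw [hcard]; exact hf3)
          (by rw [hcardg]; exact hg3) hdL
        exact fun x hx y hy => reachable_of_meet_le hdL hle hx hy
    refine meet_le_of_reachable fun x hx y hy => ?_
    have h1 := reach_merge (f := f) huv h (key x.1 ((um_mem huv).2 hx) y.1 ((um_mem huv).2 hy))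
    rwa [mproj_of_ne huv x.2, mproj_of_ne huv y.2] at h1
  have hconn : (gr M).Preconnected := by
    intro x y
    have h1 : (del (gr A) (∅ : Finset V)).Reachable x.1 y.1 := by
      refine (h.conn x.1 y.1).mono ?_
      intro a b hab
      exact ⟨hab, by simp, by simp⟩
    have he : unmerge u v (∅ : Finset {w : V // w ≠ v}) = ∅ := by
      ext z; rw [mem_unmerge_iff huv]; simp
    rw [← he] at h1
    have h2 := reach_merge (f := ∅) huv h h1
    rw [mproj_of_ne huv x.2, mproj_of_ne huv y.2] at h2
    refine h2.mono ?_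
    intro a b hab
    exact hab.1
  refine ⟨⟨hdown, ?_, ?_, hconn, hface, hnonface, ?_⟩, ?_⟩
  · -- singletons
    intro x
    by_cases hx : x = k
    · subst hx
      show ext A u v (unmerge u v {k})
      have he : unmerge u v {k} = {u, v} := by
        have h1 := um_pair_in (v := v) huv (y := k)
        rw [show ({⟨u, huv⟩, k} : Finset {w : V // w ≠ v}) = {k} from by simp [hkdef]] at h1
        rw [h1]
        ext z
        simp only [mem_insert, mem_singleton, hkdef]
        tauto
      rw [he, ext_iff_of_mem h hadj (by simp) (by simp)]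
      refine ⟨?_, ?_, ?_⟩
      · refine h.down _ {v} ?_ (h.sing v)
        intro z hz
        rw [mem_erase, mem_insert, mem_singleton] at hz
        rw [mem_singleton]
        tauto
      · refine h.down _ {u} ?_ (h.sing u)
        intro z hz
        rw [mem_erase, mem_insert, mem_singleton] at hz
        rw [mem_singleton]
        tauto
      · intro S' hS' hu' hv'
        have : S' = {u, v} := by
          refine Subset.antisymm hS' ?_
          intro z hz
          simp only [mem_insert, mem_singleton] at hz
          rcases hz with rfl | rfl <;> assumption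
        rw [this]
        exact (kk_pair h3).resolve_right huv
    · have hkx : k ∉ ({x} : Finset {w : V // w ≠ v}) := by
        rw [mem_singleton]
        exact fun he => hx he.symm
      refine (merge_out huv hkx).2 ?_
      have he : unmerge u v {x} = {x.1} := by
        have h1 := um_pair_out huv hx hx
        simpa using h1
      rw [he]
      exact h.sing _
  · have := card_ne v
    omega
  · intro f g hf hg hf3 hg3 hd
    by_cases hk : k ∈ f
    · have hkg : k ∉ g := fun hkg => Finset.disjoint_left.1 hd hk hkg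
      by_contra hlt
      have h1 := hcross1 g f hg hf hg3 hf3 hd.symm hkg
      have h2 := cross_mutual hconn hd (card_pos.1 (by omega)) (hnonface g hg hg3)
        (fun X hX hne => hface X (hg.2 X hX) hne) (by omega)
      omega
    · exact hcross1 f g hf hg hf3 hg3 hd hk
  · intro T hT
    left
    by_contra hk
    have h1 := (merge_out huv hk).1 hT.face
    have h2 := cc_out_le huv h hadj hk
    have hcard := card_um_out huv hk
    have hT0 : cc (gr M) T = 0 := hT.zero
    have h2' : cc (gr M) T ≤ cc (gr A) (unmerge u v T) := h2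
    have hTwo := hT.two
    have h4 := h.face _ h1 (card_pos.1 (by omega))
    have h5 : Tight A (unmerge u v T) := ⟨h1, by omega, by omega⟩
    rcases htight _ h5 with h6 | h6
    · exact hk ((um_u huv).1 h6)
    · exact hk ((um_v huv).1 h6)

end Pool.Agent.Chrom
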